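import Pool.Agent.L0h7.KN.Stm

/-! # KN, module PAT: the idempotence of the value depends on finitely many relations -/

set_option autoImplicit false

open CategoryTheory

noncomputable section

namespace Pool.Agent.L0h91.KN.PAT

open Pool.Agent.Y75.NK
open Pool.Agent.L0h7.KN

/-- the image is one in `ℤᵐ × G` at the same time as in `ℤᵐ × H` -/
theorem EF_one_iff : ∀ (m : ℕ) {A G H : GrpCat.{0}} (f : A ⟶ G) (g : A ⟶ H) (z : (EF m).obj A),
    (f.hom (prj m A z) = 1 ↔ g.hom (prj m A z) = 1) →
    (((EF m).map f).hom z = 1 ↔ ((EF m).map g).hom z = 1)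
  | 0, _, _, _, _, _, _, h => h
  | m + 1, A, G, H, f, g, z, h => by
    refine EF_one_iff m (tz.map f) (tz.map g) z ?_
    have h1 : ∀ (K : GrpCat.{0}) (k : A ⟶ K), ((tz.map k).hom (prj m (tz.obj A) z) = 1 ↔
        (prj m (tz.obj A) z).1 = 1 ∧ k.hom (prj m (tz.obj A) z).2 = 1) := by
      intro K k
      constructor
      · intro h2
        exact ⟨congrArg Prod.fst h2, congrArg Prod.snd h2⟩
      · rintro ⟨h2, h3⟩
        exact Prod.ext h2 h3
    rw [h1 G f, h1 H g]
    exact and_congr_right fun _ => h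

/-- a function which is constant on the fibres of another on the support -/
theorem mapDomain_zero_of {R K A B : Type} [Ring R] [Nonempty B] (F : K → A) (G : K → B)
    (a : MonoidAlgebra R K) (h : ∀ x ∈ a.coeff.support, ∀ y ∈ a.coeff.support,
      F x = F y → G x = G y) (h0 : Finsupp.mapDomain F a.coeff = 0) :
    Finsupp.mapDomain G a.coeff = 0 := by
  classical
  obtain ⟨T, hT⟩ : ∃ T : A → B, ∀ x ∈ a.coeff.support, G x = T (F x) := by
    refine ⟨fun w => if hw : ∃ x ∈ a.coeff.support, F x = w then G hw.choose else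
      Classical.arbitrary B, fun x hx => ?_⟩
    have hw : ∃ x' ∈ a.coeff.support, F x' = F x := ⟨x, hx, rfl⟩
    beta_reduce
    rw [dif_pos hw]
    exact h x hx _ hw.choose_spec.1 hw.choose_spec.2.symm
  have h1 : Finsupp.mapDomain G a.coeff = Finsupp.mapDomain (T ∘ F) a.coeff :=
    Finsupp.mapDomain_congr hT
  rw [h1, Finsupp.mapDomain_comp, h0, Finsupp.mapDomain_zero]

/-- the value of a formal matrix as a ring homomorphism -/
theorem ev_idem_iff (R : Type) [Ring R] (m : ℕ) {n d : ℕ}
    (M : Matrix (Fin d) (Fin d) (MonoidAlgebra R ((EF m).obj (fm n)))) {G : GrpCat.{0}}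
    (f : fm n ⟶ G) : ev R m M f * ev R m M f = ev R m M f ↔
      ∀ i j, MonoidAlgebra.mapDomainRingHom R ((EF m).map f).hom ((M * M - M) i j) = 0 := by
  unfold ev
  have h1 : M.map (MonoidAlgebra.mapDomainRingHom R ((EF m).map f).hom) *
      M.map (MonoidAlgebra.mapDomainRingHom R ((EF m).map f).hom) =
      (M * M).map (MonoidAlgebra.mapDomainRingHom R ((EF m).map f).hom) :=
    Matrix.map_mul.symm
  rw [h1]
  constructor
  · intro h i j
    have h2 := congrFun (congrFun h i) j
    rw [Matrix.map_apply, Matrix.map_apply] at h2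
    rw [Matrix.sub_apply, map_sub, h2, sub_self]
  · intro h
    ext1 i j
    have h2 := h i j
    rw [Matrix.sub_apply, map_sub, sub_eq_zero] at h2
    rw [Matrix.map_apply, Matrix.map_apply, h2]

open scoped Classical in
/-- (PAT) -/
theorem t_PAT : S_PAT := by
  intro R _ m n d M
  -- the supports of the entries
  let U : Finset ((EF m).obj (fm n)) :=
    Finset.univ.biUnion fun i : Fin d => Finset.univ.biUnion fun j : Fin d =>
      ((M * M - M) i j).coeff.support
  refine ⟨(U ×ˢ U).image fun p => prj m (fm n) p.1 * (prj m (fm n) p.2)⁻¹, ?_⟩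
  intro G H f g hE hf
  rw [ev_idem_iff] at hf ⊢
  intro i j
  have h1 : MonoidAlgebra.mapDomainRingHom R ((EF m).map f).hom ((M * M - M) i j) = 0 := hf i j
  have h2 : Finsupp.mapDomain ((EF m).map f).hom ((M * M - M) i j).coeff = 0 := by
    have := congrArg MonoidAlgebra.coeff h1
    exact this
  have h3 : Finsupp.mapDomain ((EF m).map g).hom ((M * M - M) i j).coeff = 0 := by
    refine mapDomain_zero_of _ _ _ ?_ h2
    intro x hx y hy hxy
    have hxU : x ∈ U := Finset.mem_biUnion.2 ⟨i, Finset.mem_univ _,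
      Finset.mem_biUnion.2 ⟨j, Finset.mem_univ _, hx⟩⟩
    have hyU : y ∈ U := Finset.mem_biUnion.2 ⟨i, Finset.mem_univ _,
      Finset.mem_biUnion.2 ⟨j, Finset.mem_univ _, hy⟩⟩
    have h4 := hE _ (Finset.mem_image_of_mem
      (fun p : (EF m).obj (fm n) × (EF m).obj (fm n) => prj m (fm n) p.1 * (prj m (fm n) p.2)⁻¹)
      (Finset.mk_mem_product hxU hyU))
    have h5 : prj m (fm n) (x * y⁻¹) = prj m (fm n) x * (prj m (fm n) y)⁻¹ := by
      rw [map_mul, map_inv]
    have h6 := EF_one_iff m f g (x * y⁻¹) (by rw [h5]; exact h4)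
    have h7 : ((EF m).map f).hom (x * y⁻¹) = 1 := by
      rw [map_mul, map_inv, hxy, mul_inv_cancel]
    have h8 := h6.1 h7
    rw [map_mul, map_inv] at h8
    exact mul_inv_eq_one.1 h8
  show MonoidAlgebra.mapDomainRingHom R ((EF m).map g).hom ((M * M - M) i j) = 0
  apply MonoidAlgebra.coeff_injective
  exact h3

end Pool.Agent.L0h91.KN.PAT
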